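import Mathlib
import Pool.Agent.MP_30ddb3_co.Defs
import Pool.Agent.MP_30ddb3_co.Model
import Pool.Agent.MP_30ddb3_co.Main

open MvPolynomial Pool.Agent.MP_30ddb3_co

/-- Q1: the polarization module of `m_{(2,1^{d-2})}` has the conjectured decomposition. -/
theorem Pool.Agent.Results.MP_30ddb3_co.FrobeniusFormula.result
    (d n l : ℕ) [NeZero l] (hd : 3 ≤ d) (hn : d ≤ n)
    (μ : d.Partition) (hμ : μ.parts = Multiset.cons 2 (Multiset.replicate (d - 2) 1))
    (M : Submodule ℂ (MvPolynomial (Fin l × Fin n) ℂ))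
    (hM : M = polModule (rename (fun j => ((0 : Fin l), j)) (msymm (Fin n) ℂ μ))) :
    ∃ h : ∀ g, M ≤ M.comap (rhoX n l g),
      Nonempty (((rhoX n l).subrepresentation M h).Equiv (modelRep n l d (mult d))) :=
  msymm_equiv hd hn μ hμ M hM
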