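import Mathlib
import Pool.Agent.MP_30ddb3_co.Defs
import Pool.Agent.MP_30ddb3_co.Main

open MvPolynomial Pool.Agent.MP_30ddb3_co

/-- Q2: the polarization modules of `m_{(2,1^{d-2})}` and `e_{d-1} e_1` are isomorphic exactly
when `d` is odd. -/
theorem Pool.Agent.Results.MP_30ddb3_co.IsoIffOdd.result
    (d n l : ℕ) [NeZero l] (hd : 3 ≤ d) (hn : d ≤ n)
    (μ : d.Partition) (hμ : μ.parts = Multiset.cons 2 (Multiset.replicate (d - 2) 1))
    (M N : Submodule ℂ (MvPolynomial (Fin l × Fin n) ℂ))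
    (hM : M = polModule (rename (fun j => ((0 : Fin l), j)) (msymm (Fin n) ℂ μ)))
    (hN : N = polModule (rename (fun j => ((0 : Fin l), j))
      (esymm (Fin n) ℂ (d - 1) * esymm (Fin n) ℂ 1))) :
    ∃ (h : ∀ g, M ≤ M.comap (rhoX n l g)) (h' : ∀ g, N ≤ N.comap (rhoX n l g)),
      (Nonempty (((rhoX n l).subrepresentation M h).Equiv ((rhoX n l).subrepresentation N h'))
        ↔ Odd d) :=
  msymm_esymm_iff hd hn μ hμ M N hM hN
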